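import Pool.Agent.helper64.OT.SpecG
import Pool.Agent.helper25.OT.FME

set_option autoImplicit false

namespace Pool.Agent.OG

open Finset Pool.Agent.OT Pool.Agent.SPI Pool.Agent.helper85.PG
open scoped Pointwise

theorem FMS : FMS_stmt := by
  intro p _ χ S
  exact FME_gen (fun x : ZMod p => psS S x) (fun (c : Option (ZMod p)) x => ch χ c x)

end Pool.Agent.OG
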